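import Mathlib

/-!
# Every odd integer at least 3 is a clique number and a chromatic number of a commuting graph

For an odd `N ≥ 3` let `p` be a prime divisor of `N`.  The commuting graph of the group
`PGL(2, p) × C_{N/p}` has clique number and chromatic number equal to `N`.
-/

open scoped MatrixGroups
open Matrix

namespace Pool.Agent.Results.MP_dcd76c_al.OddNumbers

/-- The commuting graph of a group `G`: the vertices are the non-central elements, two distinct
vertices are adjacent iff they commute. -/
def commutingGraph (G : Type) [Group G] : SimpleGraph {x : G // x ∉ Subgroup.center G} where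
  Adj x y := x ≠ y ∧ (x : G) * (y : G) = (y : G) * (x : G)
  symm := ⟨fun _ _ h => ⟨h.1.symm, h.2.symm⟩⟩
  loopless := ⟨fun _ h => h.1 rfl⟩

section colouring

variable {p : ℕ} [hp : Fact p.Prime]

/-- parity bit -/
def eps (b : ZMod p) : ZMod p := if Even b.val then 1 else 0

/-- The colour of a matrix. -/
def col (M : Matrix (Fin 2) (Fin 2) (ZMod p)) : ZMod p :=
  if M 1 0 ≠ 0 then
    M 0 0 / M 1 0 + eps (((M 0 0 - M 1 1) ^ 2 + 4 * M 0 1 * M 1 0) / (4 * M 1 0 ^ 2))
  else if M 0 0 ≠ M 1 1 then
    -(M 0 1) / (M 0 0 - M 1 1) + 2 + (M 0 0 + M 1 1) / (M 0 0 - M 1 1)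
  else M 0 0 / M 0 1

theorem two_ne (h2 : p ≠ 2) : (2 : ZMod p) ≠ 0 := by
  intro h
  have : ((2 : ℕ) : ZMod p) = 0 := by exact_mod_cast h
  rw [ZMod.natCast_eq_zero_iff] at this
  exact h2 ((Nat.prime_dvd_prime_iff_eq hp.out Nat.prime_two).1 this)

theorem eps_key (h2 : p ≠ 2) {b b' x x' : ZMod p} (hb : b ≠ 0) (hb' : b' ≠ 0)
    (h : b + b' = (x - x') ^ 2) : x + eps b ≠ x' + eps b' := by
  intro he
  have hodd : Odd p := hp.out.odd_of_ne_two h2
  have hv : b.val ≠ 0 := fun h => hb ((ZMod.val_eq_zero b).1 h)
  have hv' : b'.val ≠ 0 := fun h => hb' ((ZMod.val_eq_zero b').1 h)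
  have hl := ZMod.val_lt b
  have hl' := ZMod.val_lt b'
  by_cases e1 : Even b.val <;> by_cases e2 : Even b'.val
  · have hx : x = x' := by simpa [eps, e1, e2] using he
    rw [hx, sub_self] at h
    have h3 : ((b.val + b'.val : ℕ) : ZMod p) = 0 := by
      push_cast
      rw [ZMod.natCast_zmod_val, ZMod.natCast_zmod_val, h]
      ring
    rw [ZMod.natCast_eq_zero_iff] at h3
    obtain ⟨k, hk⟩ := h3
    have hk1 : k = 1 := by
      have : k < 2 := by
        by_contra hc
        have : p * 2 ≤ p * k := Nat.mul_le_mul_left _ (by omega)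
        omega
      have : k ≠ 0 := by rintro rfl; omega
      omega
    subst hk1
    rw [mul_one] at hk
    have : Even p := hk ▸ e1.add e2
    exact (Nat.not_even_iff_odd.2 hodd) this
  · have hx : (x - x') ^ 2 = 1 := by
      have : x + 1 = x' + 0 := by simpa [eps, e1, e2] using he
      have : x - x' = -1 := by linear_combination this
      rw [this]; ring
    rw [hx] at h
    have h3 : ((b.val + b'.val : ℕ) : ZMod p) = ((1 : ℕ) : ZMod p) := by
      push_cast
      rw [ZMod.natCast_zmod_val, ZMod.natCast_zmod_val, h]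
    rw [ZMod.natCast_eq_natCast_iff] at h3
    have hodd' : Odd b'.val := Nat.not_even_iff_odd.1 e2
    have hs : Odd (b.val + b'.val) := e1.add_odd hodd'
    have h4 : p ∣ (b.val + b'.val) - 1 := (Nat.modEq_iff_dvd' (by omega)).1 h3.symm
    obtain ⟨k, hk⟩ := h4
    have hk1 : k = 1 := by
      have : k < 2 := by
        by_contra hc
        have : p * 2 ≤ p * k := Nat.mul_le_mul_left _ (by omega)
        omega
      have : k ≠ 0 := by rintro rfl; omega
      omega
    subst hk1
    obtain ⟨u, hu⟩ := hodd
    obtain ⟨w, hw⟩ := hs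
    omega
  · have hx : (x - x') ^ 2 = 1 := by
      have : x + 0 = x' + 1 := by simpa [eps, e1, e2] using he
      have : x - x' = 1 := by linear_combination this
      rw [this]; ring
    rw [hx] at h
    have h3 : ((b.val + b'.val : ℕ) : ZMod p) = ((1 : ℕ) : ZMod p) := by
      push_cast
      rw [ZMod.natCast_zmod_val, ZMod.natCast_zmod_val, h]
    rw [ZMod.natCast_eq_natCast_iff] at h3
    have hodd' : Odd b.val := Nat.not_even_iff_odd.1 e1
    have hs : Odd (b.val + b'.val) := hodd'.add_even e2
    have h4 : p ∣ (b.val + b'.val) - 1 := (Nat.modEq_iff_dvd' (by omega)).1 h3.symm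
    obtain ⟨k, hk⟩ := h4
    have hk1 : k = 1 := by
      have : k < 2 := by
        by_contra hc
        have : p * 2 ≤ p * k := Nat.mul_le_mul_left _ (by omega)
        omega
      have : k ≠ 0 := by rintro rfl; omega
      omega
    subst hk1
    obtain ⟨u, hu⟩ := hodd
    obtain ⟨w, hw⟩ := hs
    omega
  · have hx : x = x' := by simpa [eps, e1, e2] using he
    rw [hx, sub_self] at h
    have h3 : ((b.val + b'.val : ℕ) : ZMod p) = 0 := by
      push_cast
      rw [ZMod.natCast_zmod_val, ZMod.natCast_zmod_val, h]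
      ring
    rw [ZMod.natCast_eq_zero_iff] at h3
    obtain ⟨k, hk⟩ := h3
    have hk1 : k = 1 := by
      have : k < 2 := by
        by_contra hc
        have : p * 2 ≤ p * k := Nat.mul_le_mul_left _ (by omega)
        omega
      have : k ≠ 0 := by rintro rfl; omega
      omega
    subst hk1
    rw [mul_one] at hk
    have h1 : Odd b.val := Nat.not_even_iff_odd.1 e1
    have h2 : Odd b'.val := Nat.not_even_iff_odd.1 e2
    have : Even p := hk ▸ h1.add_odd h2
    exact (Nat.not_even_iff_odd.2 hodd) this

theorem eps_cases (b : ZMod p) : eps b = 0 ∨ eps b = 1 := by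
  unfold eps; split_ifs <;> simp

/-- proportionality in coordinates -/
theorem col_ne_comm (h2 : p ≠ 2) (M N : Matrix (Fin 2) (Fin 2) (ZMod p))
    (hM : ¬ (M 0 1 = 0 ∧ M 1 0 = 0 ∧ M 0 0 = M 1 1))
    (hN : ¬ (N 0 1 = 0 ∧ N 1 0 = 0 ∧ N 0 0 = N 1 1))
    (hprop : ¬ ∃ u : ZMod p, u ≠ 0 ∧ N = u • M)
    (hc : M * N = N * M) : col M ≠ col N := by
  have h20 := two_ne h2
  have e00 := congrFun (congrFun hc 0) 0
  have e01 := congrFun (congrFun hc 0) 1
  have e10 := congrFun (congrFun hc 1) 0
  simp only [Matrix.mul_apply, Fin.sum_univ_two] at e00 e01 e10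
  set a := M 0 0
  set b := M 0 1
  set c := M 1 0
  set d := M 1 1
  set a' := N 0 0
  set b' := N 0 1
  set c' := N 1 0
  set d' := N 1 1
  have f1 : b * c' = b' * c := by linear_combination e00
  have f2 : b' * (a - d) = b * (a' - d') := by linear_combination e01
  have f3 : c * (a' - d') = c' * (a - d) := by linear_combination e10
  intro hcol
  apply hprop
  have mk : ∀ u : ZMod p, u ≠ 0 → a' = u * a → b' = u * b → c' = u * c → d' = u * d →
      ∃ u : ZMod p, u ≠ 0 ∧ N = u • M := by
    intro u hu h1 h2 h3 h4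
    refine ⟨u, hu, ?_⟩
    ext i j
    fin_cases i <;> fin_cases j <;> simp <;> assumption
  by_cases hc0 : c = 0
  · have hc0' : c' = 0 := by
      by_contra hne
      have g1 : b = 0 := by
        have : b * c' = 0 := by rw [f1, hc0, mul_zero]
        exact (mul_eq_zero.1 this).resolve_right hne
      have g2 : a - d = 0 := by
        have : c' * (a - d) = 0 := by rw [← f3, hc0, zero_mul]
        exact (mul_eq_zero.1 this).resolve_left hne
      exact hM ⟨g1, hc0, sub_eq_zero.1 g2⟩
    by_cases had : a = d
    · have hb : b ≠ 0 := fun hb => hM ⟨hb, hc0, had⟩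
      have had' : a' = d' := by
        have : b * (a' - d') = 0 := by rw [← f2, had, sub_self, mul_zero]
        exact sub_eq_zero.1 ((mul_eq_zero.1 this).resolve_left hb)
      have hb' : b' ≠ 0 := fun hb' => hN ⟨hb', hc0', had'⟩
      have hcol' : a / b = a' / b' := by
        have h1 : col M = a / b := by simp [col, show M 1 0 = 0 from hc0, show M 0 0 = M 1 1 from had, a, b]
        have h2 : col N = a' / b' := by simp [col, show N 1 0 = 0 from hc0', show N 0 0 = N 1 1 from had', a', b']
        rw [← h1, ← h2, hcol]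
      rw [div_eq_div_iff hb hb'] at hcol'
      refine mk (b' / b) (div_ne_zero hb' hb) ?_ ?_ ?_ ?_
      · field_simp; linear_combination -hcol'
      · field_simp
      · rw [hc0', hc0, mul_zero]
      · rw [← had', ← had]; field_simp; linear_combination -hcol'
    · have had0 : a - d ≠ 0 := sub_ne_zero.2 had
      have had' : a' ≠ d' := by
        intro had'
        have : b' * (a - d) = 0 := by rw [f2, had', sub_self, mul_zero]
        exact hN ⟨(mul_eq_zero.1 this).resolve_right had0, hc0', had'⟩
      have had0' : a' - d' ≠ 0 := sub_ne_zero.2 had'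
      have hcol' : -b / (a - d) + 2 + (a + d) / (a - d) =
          -b' / (a' - d') + 2 + (a' + d') / (a' - d') := by
        have h1 : col M = -b / (a - d) + 2 + (a + d) / (a - d) := by
          simp only [col, show M 1 0 = 0 from hc0, ne_eq, not_true_eq_false, if_false,
            show ¬ (M 0 0 = M 1 1) from had, not_false_eq_true, if_true]
          rfl
        have h2 : col N = -b' / (a' - d') + 2 + (a' + d') / (a' - d') := by
          simp only [col, show N 1 0 = 0 from hc0', ne_eq, not_true_eq_false, if_false,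
            show ¬ (N 0 0 = N 1 1) from had', not_false_eq_true, if_true]
          rfl
        rw [← h1, ← h2, hcol]
      have g1 : -b / (a - d) = -b' / (a' - d') := by
        rw [div_eq_div_iff had0 had0']; linear_combination f2
      have g2 : (a + d) / (a - d) = (a' + d') / (a' - d') := by
        rw [g1] at hcol'
        exact add_left_cancel hcol'
      rw [div_eq_div_iff had0 had0'] at g2
      refine mk ((a' - d') / (a - d)) (div_ne_zero had0' had0) ?_ ?_ ?_ ?_
      · have : 2 * (a' * (a - d)) = 2 * ((a' - d') * a) := by linear_combination -g2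
        field_simp
        exact mul_left_cancel₀ h20 this
      · field_simp; linear_combination f2
      · rw [hc0', hc0, mul_zero]
      · have : 2 * (d' * (a - d)) = 2 * ((a' - d') * d) := by linear_combination -g2
        field_simp
        exact mul_left_cancel₀ h20 this
  · have hc0' : c' ≠ 0 := by
      intro hc0'
      have g1 : b' = 0 := by
        have : b' * c = 0 := by rw [← f1, hc0', mul_zero]
        exact (mul_eq_zero.1 this).resolve_right hc0
      have g2 : a' - d' = 0 := by
        have : c * (a' - d') = 0 := by rw [f3, hc0', zero_mul]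
        exact (mul_eq_zero.1 this).resolve_left hc0
      exact hN ⟨g1, hc0', sub_eq_zero.1 g2⟩
    have h4 : (4 : ZMod p) ≠ 0 := by
      have : (4 : ZMod p) = 2 * 2 := by norm_num
      rw [this]; exact mul_ne_zero h20 h20
    have hβ : ((a - d) ^ 2 + 4 * b * c) / (4 * c ^ 2) =
        ((a' - d') ^ 2 + 4 * b' * c') / (4 * c' ^ 2) := by
      rw [div_eq_div_iff (mul_ne_zero h4 (pow_ne_zero 2 hc0))
        (mul_ne_zero h4 (pow_ne_zero 2 hc0'))]
      have q1 : (a - d) ^ 2 * c' ^ 2 = (a' - d') ^ 2 * c ^ 2 := by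
        have : c' ^ 2 * (a - d) ^ 2 = (c' * (a - d)) ^ 2 := by ring
        linear_combination this - (c * (a' - d') + c' * (a - d)) * f3
      linear_combination 4 * q1 + 16 * c * c' * f1
    have hcol' : a / c = a' / c' := by
      have h1 : col M = a / c + eps (((a - d) ^ 2 + 4 * b * c) / (4 * c ^ 2)) := by
        simp only [col, show (M 1 0 ≠ 0) from hc0, if_true, not_false_eq_true, ne_eq]
        rfl
      have h2 : col N = a' / c' + eps (((a' - d') ^ 2 + 4 * b' * c') / (4 * c' ^ 2)) := by
        simp only [col, show (N 1 0 ≠ 0) from hc0', if_true, not_false_eq_true, ne_eq]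
        rfl
      rw [h1, h2, hβ] at hcol
      exact add_right_cancel hcol
    rw [div_eq_div_iff hc0 hc0'] at hcol'
    refine mk (c' / c) (div_ne_zero hc0' hc0) ?_ ?_ ?_ ?_
    · field_simp; linear_combination -hcol'
    · field_simp; linear_combination -f1
    · field_simp
    · field_simp; linear_combination -hcol' - f3

theorem col_ne_anti (h2 : p ≠ 2) (M N : Matrix (Fin 2) (Fin 2) (ZMod p))
    (hM : IsUnit M.det) (hN : IsUnit N.det) (tM : M.trace = 0) (tN : N.trace = 0)
    (hc : M * N = -(N * M)) : col M ≠ col N := by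
  have h20 := two_ne h2
  have h4 : (4 : ZMod p) ≠ 0 := by
    have : (4 : ZMod p) = 2 * 2 := by norm_num
    rw [this]; exact mul_ne_zero h20 h20
  have e00 := congrFun (congrFun hc 0) 0
  simp only [Matrix.mul_apply, Fin.sum_univ_two, Matrix.neg_apply] at e00
  rw [Matrix.trace_fin_two] at tM tN
  rw [Matrix.det_fin_two] at hM hN
  have hM := hM.ne_zero
  have hN := hN.ne_zero
  have c1 : M 1 0 ≠ 0 → col M = M 0 0 / M 1 0 +
      eps (((M 0 0 - M 1 1) ^ 2 + 4 * M 0 1 * M 1 0) / (4 * M 1 0 ^ 2)) := by
    intro h; simp only [col, h, if_true, not_false_eq_true, ne_eq]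
  have c2 : N 1 0 ≠ 0 → col N = N 0 0 / N 1 0 +
      eps (((N 0 0 - N 1 1) ^ 2 + 4 * N 0 1 * N 1 0) / (4 * N 1 0 ^ 2)) := by
    intro h; simp only [col, h, if_true, not_false_eq_true, ne_eq]
  have c3 : M 1 0 = 0 → M 0 0 ≠ M 1 1 → col M =
      -(M 0 1) / (M 0 0 - M 1 1) + 2 + (M 0 0 + M 1 1) / (M 0 0 - M 1 1) := by
    intro h h'
    simp only [col, h, h', if_true, not_false_eq_true, ne_eq, not_true_eq_false, if_false]
  have c4 : N 1 0 = 0 → N 0 0 ≠ N 1 1 → col N =
      -(N 0 1) / (N 0 0 - N 1 1) + 2 + (N 0 0 + N 1 1) / (N 0 0 - N 1 1) := by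
    intro h h'
    simp only [col, h, h', if_true, not_false_eq_true, ne_eq, not_true_eq_false, if_false]
  generalize M 0 0 = a at *
  generalize M 0 1 = b at *
  generalize M 1 0 = c at *
  generalize M 1 1 = d at *
  generalize N 0 0 = a' at *
  generalize N 0 1 = b' at *
  generalize N 1 0 = c' at *
  generalize N 1 1 = d' at *
  have hd : d = -a := by linear_combination tM
  have hd' : d' = -a' := by linear_combination tN
  subst hd
  subst hd'
  have key : 2 * a * a' + b * c' + b' * c = 0 := by linear_combination e00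
  have small : ∀ b : ZMod p, eps b ≠ 2 := by
    intro b hb
    rcases eps_cases b with h | h
    · rw [h] at hb; exact h20 hb.symm
    · rw [h] at hb
      have : (1 : ZMod p) = 0 := by linear_combination -hb
      exact one_ne_zero this
  by_cases hc0 : c = 0
  · have ha : a ≠ 0 := by
      rintro rfl
      apply hM
      rw [hc0]; ring
    have haa : a ≠ -a := by
      intro h
      have : 2 * a = 0 := by linear_combination h
      exact ha ((mul_eq_zero.1 this).resolve_left h20)
    by_cases hc0' : c' = 0
    · exfalso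
      have ha' : a' ≠ 0 := by
        rintro rfl
        apply hN
        rw [hc0']; ring
      rw [hc0, hc0'] at key
      have : 2 * a * a' = 0 := by linear_combination key
      exact mul_ne_zero (mul_ne_zero h20 ha) ha' this
    · rw [c3 hc0 haa, c2 hc0']
      have hx : a' / c' = -b / (a - -a) := by
        have : a - -a ≠ 0 := by
          have : a - -a = 2 * a := by ring
          rw [this]; exact mul_ne_zero h20 ha
        rw [div_eq_div_iff hc0' this]
        rw [hc0] at key
        linear_combination key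
      rw [hx]
      have h0 : (a + -a) / (a - -a) = 0 := by rw [add_neg_cancel, zero_div]
      rw [h0, add_zero]
      intro he
      exact small _ (add_left_cancel he).symm
  · by_cases hc0' : c' = 0
    · have ha' : a' ≠ 0 := by
        rintro rfl
        apply hN
        rw [hc0']; ring
      have haa' : a' ≠ -a' := by
        intro h
        have : 2 * a' = 0 := by linear_combination h
        exact ha' ((mul_eq_zero.1 this).resolve_left h20)
      rw [c1 hc0, c4 hc0' haa']
      have hx : a / c = -b' / (a' - -a') := by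
        have : a' - -a' ≠ 0 := by
          have : a' - -a' = 2 * a' := by ring
          rw [this]; exact mul_ne_zero h20 ha'
        rw [div_eq_div_iff hc0 this]
        rw [hc0'] at key
        linear_combination key
      rw [hx]
      have h0 : (a' + -a') / (a' - -a') = 0 := by rw [add_neg_cancel, zero_div]
      rw [h0, add_zero]
      intro he
      exact small _ (add_left_cancel he)
    · rw [c1 hc0, c2 hc0']
      have hβ : ((a - -a) ^ 2 + 4 * b * c) / (4 * c ^ 2) ≠ 0 := by
        apply div_ne_zero
        · have : (a - -a) ^ 2 + 4 * b * c = -(4 * (a * -a - b * c)) := by ring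
          rw [this]
          exact neg_ne_zero.2 (mul_ne_zero h4 hM)
        · exact mul_ne_zero h4 (pow_ne_zero 2 hc0)
      have hβ' : ((a' - -a') ^ 2 + 4 * b' * c') / (4 * c' ^ 2) ≠ 0 := by
        apply div_ne_zero
        · have : (a' - -a') ^ 2 + 4 * b' * c' = -(4 * (a' * -a' - b' * c')) := by ring
          rw [this]
          exact neg_ne_zero.2 (mul_ne_zero h4 hN)
        · exact mul_ne_zero h4 (pow_ne_zero 2 hc0')
      refine eps_key h2 hβ hβ' ?_
      have q : ((a - -a) ^ 2 + 4 * b * c) / (4 * c ^ 2) = (a / c) ^ 2 + b / c := by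
        field_simp; ring
      have q' : ((a' - -a') ^ 2 + 4 * b' * c') / (4 * c' ^ 2) = (a' / c') ^ 2 + b' / c' := by
        field_simp; ring
      rw [q, q']
      have r : b / c + b' / c' = -(2 * (a / c) * (a' / c')) := by
        field_simp
        linear_combination key
      linear_combination r

/-- The main property of the colouring: if two invertible non-scalar matrices commute up to a
scalar and are not proportional, then they get different colours. -/
theorem col_ne (h2 : p ≠ 2) (M N : GL (Fin 2) (ZMod p))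
    (hM : Matrix.ProjGenLinGroup.mk M ≠ 1) (hN : Matrix.ProjGenLinGroup.mk N ≠ 1)
    (hne : Matrix.ProjGenLinGroup.mk M ≠ Matrix.ProjGenLinGroup.mk N)
    (hc : Matrix.ProjGenLinGroup.mk M * Matrix.ProjGenLinGroup.mk N =
      Matrix.ProjGenLinGroup.mk N * Matrix.ProjGenLinGroup.mk M) :
    col M.val ≠ col N.val := by
  have nonscalar : ∀ K : GL (Fin 2) (ZMod p), Matrix.ProjGenLinGroup.mk K ≠ 1 →
      ¬ (K.val 0 1 = 0 ∧ K.val 1 0 = 0 ∧ K.val 0 0 = K.val 1 1) := by
    rintro K hK ⟨k1, k2, k3⟩
    apply hK
    rw [Matrix.ProjGenLinGroup.mk_eq_one,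
      Matrix.GeneralLinearGroup.mem_center_iff_val_mem_range_scalar]
    refine ⟨K.val 0 0, ?_⟩
    ext i j
    fin_cases i <;> fin_cases j <;> simp [k1, k2, ← k3]
  rw [← map_mul, ← map_mul, Matrix.ProjGenLinGroup.mk_eq_mk_iff] at hc
  obtain ⟨u, hu⟩ := hc
  have hu' : (u : ZMod p) • (M.val * N.val) = N.val * M.val := by
    have := congrArg Units.val hu
    rw [Units.val_mul, Units.val_mul, Units.val_mul, Matrix.GeneralLinearGroup.coe_scalar] at this
    rw [← this]
    simp [Matrix.scalar_apply, ← Matrix.smul_one_eq_diagonal]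
  have hdM : IsUnit M.val.det := (Matrix.isUnit_iff_isUnit_det _).1 M.isUnit
  have hdN : IsUnit N.val.det := (Matrix.isUnit_iff_isUnit_det _).1 N.isUnit
  have hsq : (u : ZMod p) ^ 2 = 1 := by
    have := congrArg Matrix.det hu'
    rw [Matrix.det_smul, Matrix.det_mul, Matrix.det_mul, Fintype.card_fin] at this
    have hne : M.val.det * N.val.det ≠ 0 := mul_ne_zero hdM.ne_zero hdN.ne_zero
    have : (u : ZMod p) ^ 2 * (M.val.det * N.val.det) = 1 * (M.val.det * N.val.det) := by
      rw [this]; ring
    exact mul_right_cancel₀ hne this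
  have h20 := two_ne h2
  rcases mul_self_eq_one_iff.1 ((sq _).symm.trans hsq) with h | h
  · rw [h, one_smul] at hu'
    refine col_ne_comm h2 _ _ (nonscalar M hM) (nonscalar N hN) ?_ hu'
    rintro ⟨w, hw, e⟩
    apply hne
    rw [Matrix.ProjGenLinGroup.mk_eq_mk_iff]
    refine ⟨Units.mk0 w hw, ?_⟩
    apply Units.ext
    rw [Units.val_mul, Matrix.GeneralLinearGroup.coe_scalar, e]
    simp [Matrix.scalar_apply, ← Matrix.smul_one_eq_diagonal]
  · rw [h, neg_smul, one_smul] at hu'
    have trz : ∀ A B : GL (Fin 2) (ZMod p), -(A.val * B.val) = B.val * A.val →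
        A.val.trace = 0 := by
      intro A B hAB
      have h1 : B.val * A.val * (B⁻¹).val = -A.val := by
        rw [← hAB, Matrix.neg_mul, Matrix.mul_assoc, ← Units.val_mul, mul_inv_cancel,
          Units.val_one, Matrix.mul_one]
      have h2 := Matrix.trace_units_conj B A.val
      rw [h1, Matrix.trace_neg] at h2
      have h3 : 2 * A.val.trace = 0 := by linear_combination -h2
      exact (mul_eq_zero.1 h3).resolve_left h20
    exact col_ne_anti h2 _ _ hdM hdN (trz M N hu') (trz N M (by rw [← hu', neg_neg]))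
      (by rw [← hu', neg_neg])

end colouring

section clique

variable {p : ℕ} [hp : Fact p.Prime]

/-- The elements of a non-split torus. -/
noncomputable def tor (δ x : ZMod p) (hδ : ¬ IsSquare δ) : GL (Fin 2) (ZMod p) :=
  Matrix.GeneralLinearGroup.mkOfDetNeZero !![x, δ; 1, x] (by
    rw [Matrix.det_fin_two_of, mul_one]
    intro h
    exact hδ ⟨x, by linear_combination -h⟩)

theorem tor_val (δ x : ZMod p) (hδ : ¬ IsSquare δ) : (tor δ x hδ).val = !![x, δ; 1, x] := rfl

theorem tor_comm (δ x y : ZMod p) (hδ : ¬ IsSquare δ) :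
    tor δ x hδ * tor δ y hδ = tor δ y hδ * tor δ x hδ := by
  apply Units.ext
  rw [Units.val_mul, Units.val_mul, tor_val, tor_val, Matrix.mul_fin_two, Matrix.mul_fin_two]
  ext i j
  fin_cases i <;> fin_cases j <;> simp <;> ring

theorem scalar_mul_val (M : GL (Fin 2) (ZMod p)) (u : (ZMod p)ˣ) :
    (M * Matrix.GeneralLinearGroup.scalar (Fin 2) u).val = (u : ZMod p) • M.val := by
  rw [Units.val_mul, Matrix.GeneralLinearGroup.coe_scalar]
  simp [Matrix.scalar_apply, ← Matrix.smul_one_eq_diagonal]

theorem mk_tor_inj (δ x y : ZMod p) (hδ : ¬ IsSquare δ)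
    (h : Matrix.ProjGenLinGroup.mk (tor δ x hδ) = Matrix.ProjGenLinGroup.mk (tor δ y hδ)) :
    x = y := by
  rw [Matrix.ProjGenLinGroup.mk_eq_mk_iff] at h
  obtain ⟨u, hu⟩ := h
  have hv := congrArg Units.val hu
  rw [scalar_mul_val, tor_val, tor_val] at hv
  have h1 := congrFun (congrFun hv 1) 0
  have h2 := congrFun (congrFun hv 0) 0
  simp at h1 h2
  rw [h1] at h2
  simpa using h2

/-- a unipotent element -/
noncomputable def uni : GL (Fin 2) (ZMod p) :=
  Matrix.GeneralLinearGroup.mkOfDetNeZero !![1, 1; 0, 1] (by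
    rw [Matrix.det_fin_two_of]; simp)

theorem mk_tor_uni (δ x : ZMod p) (hδ : ¬ IsSquare δ) :
    Matrix.ProjGenLinGroup.mk (uni : GL (Fin 2) (ZMod p)) *
      Matrix.ProjGenLinGroup.mk (tor δ x hδ) ≠
    Matrix.ProjGenLinGroup.mk (tor δ x hδ) * Matrix.ProjGenLinGroup.mk uni := by
  intro h
  rw [← map_mul, ← map_mul, Matrix.ProjGenLinGroup.mk_eq_mk_iff] at h
  obtain ⟨u, hu⟩ := h
  have hv := congrArg Units.val hu
  rw [scalar_mul_val, Units.val_mul, Units.val_mul, tor_val,
    show (uni : GL (Fin 2) (ZMod p)).val = !![1, 1; 0, 1] from rfl] at hv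
  have h1 := congrFun (congrFun hv 1) 0
  have h2 := congrFun (congrFun hv 0) 0
  simp [Matrix.mul_apply, Fin.sum_univ_two] at h1 h2
  rw [h1] at h2
  simp at h2

end clique

/-- The group `PGL(2, p) × C_z`. -/
abbrev Grp (p z : ℕ) : Type := PGL(2, ZMod p) × Multiplicative (ZMod z)

theorem main (p z : ℕ) [hp : Fact p.Prime] (h2 : p ≠ 2) [NeZero z] :
    Finite (Grp p z) ∧ (∃ a b : Grp p z, a * b ≠ b * a) ∧
      (commutingGraph (Grp p z)).cliqueNum = p * z ∧
      (commutingGraph (Grp p z)).chromaticNumber = ((p * z : ℕ) : ℕ∞) := by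
  classical
  have hfin : Finite (PGL(2, ZMod p)) :=
    Finite.of_surjective _ Matrix.ProjGenLinGroup.mk_surjective
  have hfin' : Finite (Grp p z) := inferInstance
  obtain ⟨δ, hδ⟩ : ∃ δ : ZMod p, ¬ IsSquare δ :=
    FiniteField.exists_nonsquare (by rw [ZMod.ringChar_zmod_n]; exact h2)
  have hnc : ∀ (x : ZMod p) (s : ZMod z),
      ((Matrix.ProjGenLinGroup.mk (tor δ x hδ), Multiplicative.ofAdd s) : Grp p z) ∉
        Subgroup.center (Grp p z) := by
    intro x s h
    rw [Subgroup.mem_center_iff] at h
    have h1 := congrArg Prod.fst (h (Matrix.ProjGenLinGroup.mk uni, 1))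
    exact mk_tor_uni δ x hδ h1
  let φ : ZMod p × ZMod z → {x : Grp p z // x ∉ Subgroup.center (Grp p z)} := fun q =>
    ⟨(Matrix.ProjGenLinGroup.mk (tor δ q.1 hδ), Multiplicative.ofAdd q.2), hnc q.1 q.2⟩
  have hφ : Function.Injective φ := by
    rintro ⟨x, s⟩ ⟨y, t⟩ h
    have h1 := congrArg Subtype.val h
    have h3 := congrArg Prod.fst h1
    have h4 := congrArg Prod.snd h1
    have h5 := mk_tor_inj δ x y hδ h3
    have h6 : s = t := Multiplicative.ofAdd.injective h4
    rw [h5, h6]
  have hcl : (commutingGraph (Grp p z)).IsClique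
      ((Finset.univ.image φ : Finset _) : Set _) := by
    intro u hu v hv huv
    simp only [Finset.coe_image, Finset.coe_univ, Set.image_univ, Set.mem_range] at hu hv
    obtain ⟨⟨x, s⟩, rfl⟩ := hu
    obtain ⟨⟨y, t⟩, rfl⟩ := hv
    refine ⟨huv, ?_⟩
    show ((_, _) : Grp p z) * (_, _) = (_, _) * (_, _)
    refine Prod.ext ?_ (mul_comm _ _)
    show Matrix.ProjGenLinGroup.mk _ * Matrix.ProjGenLinGroup.mk _ =
      Matrix.ProjGenLinGroup.mk _ * Matrix.ProjGenLinGroup.mk _
    rw [← map_mul, ← map_mul, tor_comm]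
  have hcard : (Finset.univ.image φ).card = p * z := by
    rw [Finset.card_image_of_injective _ hφ, Finset.card_univ, Fintype.card_prod, ZMod.card,
      ZMod.card]
  have hlow : p * z ≤ (commutingGraph (Grp p z)).cliqueNum := by
    rw [← hcard]
    exact hcl.card_le_cliqueNum
  -- the colouring
  let C : (commutingGraph (Grp p z)).Coloring (ZMod p × ZMod z) :=
    SimpleGraph.Coloring.mk (fun v =>
      (col (Function.surjInv Matrix.ProjGenLinGroup.mk_surjective v.1.1 :
        GL (Fin 2) (ZMod p)).val, Multiplicative.toAdd v.1.2)) (by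
      rintro ⟨⟨g, s⟩, hv⟩ ⟨⟨k, t⟩, hw⟩ hvw he
      obtain ⟨hne, hc⟩ := hvw
      have he1 := congrArg Prod.fst he
      have he2 : s = t := Multiplicative.toAdd.injective (congrArg Prod.snd he)
      subst he2
      have hgk : g ≠ k := by
        rintro rfl
        exact hne rfl
      have hone : ∀ (g : PGL(2, ZMod p)) (s : Multiplicative (ZMod z)),
          ((g, s) : Grp p z) ∉ Subgroup.center (Grp p z) → g ≠ 1 := by
        rintro g s hg rfl
        apply hg
        rw [Subgroup.mem_center_iff]
        rintro ⟨a, b⟩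
        exact Prod.ext (by simp) (mul_comm _ _)
      have hg1 := hone g s hv
      have hk1 := hone k s hw
      have hcc : g * k = k * g := congrArg Prod.fst hc
      have eg := Function.surjInv_eq (Matrix.ProjGenLinGroup.mk_surjective
        (n := Fin 2) (R := ZMod p)) g
      have ek := Function.surjInv_eq (Matrix.ProjGenLinGroup.mk_surjective
        (n := Fin 2) (R := ZMod p)) k
      refine col_ne h2 _ _ ?_ ?_ ?_ ?_ he1
      · show Matrix.ProjGenLinGroup.mk (Function.surjInv _ g) ≠ 1
        rw [eg]; exact hg1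
      · show Matrix.ProjGenLinGroup.mk (Function.surjInv _ k) ≠ 1
        rw [ek]; exact hk1
      · show Matrix.ProjGenLinGroup.mk (Function.surjInv _ g) ≠
          Matrix.ProjGenLinGroup.mk (Function.surjInv _ k)
        rw [eg, ek]; exact hgk
      · show Matrix.ProjGenLinGroup.mk (Function.surjInv _ g) *
          Matrix.ProjGenLinGroup.mk (Function.surjInv _ k) =
          Matrix.ProjGenLinGroup.mk (Function.surjInv _ k) *
          Matrix.ProjGenLinGroup.mk (Function.surjInv _ g)
        rw [eg, ek]; exact hcc)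
  have hup : (commutingGraph (Grp p z)).chromaticNumber ≤ ((p * z : ℕ) : ℕ∞) := by
    have := C.colorable.chromaticNumber_le
    rwa [Fintype.card_prod, ZMod.card, ZMod.card] at this
  have hmid := (commutingGraph (Grp p z)).cliqueNum_le_chromaticNumber
  refine ⟨hfin', ⟨(Matrix.ProjGenLinGroup.mk uni, 1),
    (Matrix.ProjGenLinGroup.mk (tor δ 0 hδ), 1),
    fun h => mk_tor_uni δ 0 hδ (congrArg Prod.fst h)⟩, ?_, ?_⟩
  · refine le_antisymm ?_ hlow
    exact_mod_cast hmid.trans hup
  · refine le_antisymm hup (le_trans ?_ hmid)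
    exact_mod_cast hlow

/-- **Answer to Q1 and Q2 (yes to both).**  For every positive integer `n` there is a finite
non-abelian group whose commuting graph has clique number `2n+1` and chromatic number `2n+1`. -/
theorem result : ∀ n : ℕ, 0 < n → ∃ (G : Type) (_ : Group G), Finite G ∧
    (∃ a b : G, a * b ≠ b * a) ∧
    (commutingGraph G).cliqueNum = 2 * n + 1 ∧
    (commutingGraph G).chromaticNumber = ((2 * n + 1 : ℕ) : ℕ∞) := by
  intro n hn
  have hN : 2 * n + 1 ≠ 1 := by omega
  have hp : Fact (2 * n + 1).minFac.Prime := ⟨Nat.minFac_prime hN⟩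
  obtain ⟨z, hz⟩ := Nat.minFac_dvd (2 * n + 1)
  have h2 : (2 * n + 1).minFac ≠ 2 := by
    intro h
    rw [h] at hz
    omega
  have hz0 : NeZero z := ⟨by rintro rfl; omega⟩
  obtain ⟨h3, h4, h5, h6⟩ := main (2 * n + 1).minFac z h2
  exact ⟨Grp (2 * n + 1).minFac z, inferInstance, h3, h4, by rw [h5, ← hz], by rw [h6, ← hz]⟩

end Pool.Agent.Results.MP_dcd76c_al.OddNumbers
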